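import Pool.Agent.Helper64.DT.Stmts

/-! Diamond-free circle graphs (MP_866009_co): heredity of sides at a clique. -/

set_option autoImplicit false

namespace Pool.Agent.Helper64.DT

open Pool.Agent.Helper64.CT
open Pool.Agent.Helper64.HG (Ovl Model Circ IC HellyCircle ChordModel)

theorem st_HRQ (h1 : ST_AT2) : ST_HRQ := by
  intro V G hDF hP Q θ σ t hQ hBig hCD x hx u v hu hv huv hLe hT
  obtain ⟨p, hpQ, hpA⟩ := hT
  obtain ⟨⟨n0, hn0u, hxn0, v1, hv1, hn0v1⟩, hmix⟩ := hLe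
  -- v1 is complete to the attachments of u
  have hcomp : ∀ n ∈ Att G x u, G.Adj v1 n := by
    intro n hn
    by_contra hcon
    exact hmix v1 hv1 ⟨⟨n0, hn0u, hn0v1.symm⟩, n, hn, hcon⟩
  obtain ⟨hxp, u1, hu1, hpu1⟩ := hpA
  have hpA : p ∈ Att G x u := ⟨hxp, u1, hu1, hpu1⟩
  have hv1p : G.Adj v1 p := hcomp p hpA
  have hv1F : v1 ∈ Far G x := hv1.right
  have hu1F : u1 ∈ Far G x := hu1.right
  obtain ⟨q, hqQ, hqx, hqp⟩ := hBig x p
  have hxq : G.Adj x q := hQ.1 x hx q hqQ (fun e => hqx e.symm)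
  have hpq : G.Adj p q := hQ.1 p hpQ q hqQ (fun e => hqp e.symm)
  have hv1q : ¬ G.Adj v1 q := hDF.far hxp hxq hpq hv1F hv1p
  have hqA : q ∉ Att G x u := fun h => hv1q (hcomp q h)
  have hnotQ : ∀ w ∈ Far G x, w ∉ Q := by
    intro w hw hwQ
    exact hw.2 (hQ.1 x hx w hwQ (fun e => hw.1 e.symm))
  have hCDx := hCD.2 x hx
  have hCDq := hCD.2 q hqQ
  have hpx : p ≠ x := fun e => hxp.ne e.symm
  have e1 := hCDx.2 p hpQ hpx u1 hpu1 (hnotQ u1 hu1F)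
  have e2 := hCDx.2 p hpQ hpx v1 hv1p.symm (hnotQ v1 hv1F)
  have e3 := hCDq.2 p hpQ (fun e => hqp e.symm) u1 hpu1 (hnotQ u1 hu1F)
  have e4 := hCDq.2 p hpQ (fun e => hqp e.symm) v1 hv1p.symm (hnotQ v1 hv1F)
  obtain ⟨n, hnA, hnp⟩ := h1 V G hP x u v p hu hv huv hpA
  have hv1n : G.Adj v1 n := hcomp n hnA
  have hxn : G.Adj x n := hnA.1
  have hnp' : ¬ G.Adj p n := fun h => hDF.far hxp hxn h hv1F hv1p hv1n
  have hnq : ¬ G.Adj q n := by
    intro h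
    rcases hDF.tr hxn hxq hxp h.symm hpq.symm with e | e
    · exact hnp e
    · exact hnp' e.symm
  have hnFq : n ∈ Far G q := ⟨fun e => hqA (e ▸ hnA), hnq⟩
  have hcF : ∀ w, Comp G x u w → w ∈ Far G q := by
    intro w hw
    refine ⟨fun e => hw.right.2 (by rw [e]; exact hxq), fun h => hqA ⟨hxq, w, hw, h⟩⟩
  have hv1Fq : v1 ∈ Far G q :=
    ⟨fun e => hv1F.2 (by rw [e]; exact hxq), fun h => hv1q h.symm⟩
  obtain ⟨_, u2, hu2, hnu2⟩ := hnA
  have hu12 : Comp G x u1 u2 := hu1.symm.trans hu2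
  have hc1 : Comp G q u1 u2 := by
    refine hu12.ind (fun z => Comp G q u1 z) (Comp.refl (hcF u1 hu1)) ?_
    intro z w hz hPz hw hzw
    exact hPz.step (hcF w (hu1.trans (hz.step hw hzw))) hzw
  have hc2 : Comp G q u1 n := hc1.step hnFq hnu2.symm
  have hc3 : Comp G q u1 v1 := hc2.step hv1Fq hv1n.symm
  have e5 : t q u1 = t q v1 := hCDq.1.1 u1 v1 hc3
  have e6 : t x u = t x u1 := hCDx.1.1 u u1 hu1
  have e7 : t x v = t x v1 := hCDx.1.1 v v1 hv1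
  have hσ : σ u1 = σ v1 := by
    rw [e3, e4] at e5
    revert e5
    cases σ u1 <;> cases σ v1 <;> cases decide (θ p < θ q) <;> simp
  rw [e6, e7, e1, e2, hσ]

end Pool.Agent.Helper64.DT
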